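import Pool.Agent.H458.AU.Def

/-!
# Project AU (helper458): the number of the bad polynomials which are good at all primes in `S`
-/

set_option autoImplicit false
set_option linter.unusedSectionVars false

open Polynomial Matrix IsDedekindDomain NumberField
open scoped Classical

namespace Pool.Agent.H549.AU458.BDS

open Pool.Agent.N783.PF (Bd Cg sp rd Ht GoodS LBad Weak dsc fF Xset)
open Pool.Agent.N783.PF (S_BAD)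
open Pool.Agent.H458.AU

section

variable {F : Type} [Field F] [NumberField F]

theorem finite_quot {q : ℕ} (hq : 0 < q) : Finite (𝓞 F ⧸ sp F q) := by
  apply Ideal.finiteQuotientOfFreeOfNeBot
  rw [sp, Ne, Ideal.span_singleton_eq_bot]
  exact_mod_cast hq.ne'

theorem finite_GR {q : ℕ} (hq : 0 < q) (𝔮 : Ideal (𝓞 F)) : (GR q 𝔮).Finite := by
  have h := finite_quot (F := F) hq
  exact Set.toFinite _

theorem rd_eq {q : ℕ} {𝔭 : Ideal (𝓞 F)} (hp : (q : 𝓞 F) ∈ 𝔭) {a b a' b' : 𝓞 F}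
    (h : mk2 q a b = mk2 q a' b') : rd 𝔭 (pl a b) = rd 𝔭 (pl a' b') := by
  rw [mk2_eq] at h
  have hle : sp F q ≤ 𝔭 := by rwa [sp, Ideal.span_singleton_le_iff_mem]
  have h1 : Ideal.Quotient.mk 𝔭 a = Ideal.Quotient.mk 𝔭 a' := Ideal.Quotient.eq.2 (hle h.1)
  have h2 : Ideal.Quotient.mk 𝔭 b = Ideal.Quotient.mk 𝔭 b' := Ideal.Quotient.eq.2 (hle h.2)
  unfold rd pl
  simp only [Polynomial.map_add, Polynomial.map_mul, map_C]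
  rw [h1, h2]

theorem pl_natDegree (a b : 𝓞 F) : (pl a b).natDegree = 3 := by
  unfold pl
  compute_degree!

theorem pl_monic (a b : 𝓞 F) : (pl a b).Monic := by
  unfold pl
  monicity!

theorem pl_coeff_two (a b : 𝓞 F) : (pl a b).coeff 2 = 0 := by
  unfold pl
  simp [coeff_X_pow]

theorem h_monic (a : 𝓞 F) : (X ^ 2 + C a : (𝓞 F)[X]).Monic := by
  monicity!

theorem h_natDegree (a : 𝓞 F) : (X ^ 2 + C a : (𝓞 F)[X]).natDegree = 2 := by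
  compute_degree!

theorem cg_pl {𝔮 : Ideal (𝓞 F)} {a b : 𝓞 F} (hb : b ∈ 𝔮) :
    Cg 𝔮 (pl a b) (X * (X ^ 2 + C a)) := by
  intro j
  have h1 : pl a b - X * (X ^ 2 + C a) = C b := by
    unfold pl
    ring
  rw [← coeff_sub, h1, coeff_C]
  split_ifs
  · exact hb
  · exact 𝔮.zero_mem

theorem goodS {W : ℕ} (hW : 0 < W) {S : Finset ℕ} {𝔮 : ℕ → Ideal (𝓞 F)}
    (hS : ∀ q ∈ S, PrQ W q (𝔮 q)) {a b : ℕ → 𝓞 F} (hab : ∀ q ∈ S, Gq q (𝔮 q) (a q) (b q)) :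
    GoodS 1 W S 𝔮 (fun q => X ^ 2 + C (a q)) (fun q => pl (a q) (b q)) := by
  intro q hq
  have h1 := hS q hq
  have h2 := h1.mod8 hW
  have h3 := hab q hq
  exact ⟨h1.pr, h1.big, h2.2, h2.1, h1.unr, h1.qp, h1.mem, h_monic _, h_natDegree _, h3.2.1,
    pl_monic _ _, pl_natDegree _ _, pl_coeff_two _ _, cg_pl h3.1, h3.2.2⟩

theorem lbad {N κ : ℕ} {S : Finset ℕ} {𝔮 : ℕ → Ideal (𝓞 F)} {P : ℕ → (𝓞 F)[X]} {f : (𝓞 F)[X]}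
    (hP : ∀ q ∈ S, ∀ 𝔭 : Ideal (𝓞 F), 𝔭.IsPrime → (q : 𝓞 F) ∈ 𝔭 → rd 𝔭 f = rd 𝔭 (P q))
    (h : BadS N κ S 𝔮 f) : LBad 1 N κ S 𝔮 P f := by
  obtain ⟨h1, w, h2, h3, h4, A, B, h5, h6⟩ := h
  refine ⟨h1, w, h2, h3, h4, A, B, ⟨h5.box, fun q hq 𝔭 hp hqp => ?_, h5.dist⟩, h6⟩
  rw [← hP q hq 𝔭 hp hqp]
  exact h5.con q hq 𝔭 hp hqp

/-- A choice of a good residue for every prime in `S`. -/
abbrev Rho (S : Finset ℕ) (𝔮 : ℕ → Ideal (𝓞 F)) : Type := ∀ q : S, GR (q : ℕ) (𝔮 q)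

theorem finite_rho {S : Finset ℕ} {𝔮 : ℕ → Ideal (𝓞 F)} (hS : ∀ q ∈ S, 0 < q) :
    Finite (Rho S 𝔮) := by
  have h : ∀ q : S, Finite (GR (q : ℕ) (𝔮 q)) := fun q => (finite_GR (hS q q.2) _).to_subtype
  exact inferInstance

theorem card_rho (S : Finset ℕ) (𝔮 : ℕ → Ideal (𝓞 F)) :
    Nat.card (Rho S 𝔮) = ∏ q ∈ S, (GR q (𝔮 q)).ncard := by
  rw [Nat.card_pi, ← Finset.prod_coe_sort S (fun q => (GR q (𝔮 q)).ncard)]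
  exact Finset.prod_congr rfl fun q _ => Nat.card_coe_set_eq _

/-- Representatives of the residues. -/
theorem reps (S : Finset ℕ) (𝔮 : ℕ → Ideal (𝓞 F)) (ρ : Rho S 𝔮) :
    ∃ a b : ℕ → 𝓞 F, (∀ q ∈ S, Gq q (𝔮 q) (a q) (b q)) ∧
      ∀ q : S, (ρ q : (𝓞 F ⧸ sp F q) × (𝓞 F ⧸ sp F q)) = mk2 (q : ℕ) (a q) (b q) := by
  have h : ∀ q : ℕ, ∃ a b : 𝓞 F, ∀ hq : q ∈ S, Gq q (𝔮 q) a b ∧
      (ρ ⟨q, hq⟩ : (𝓞 F ⧸ sp F q) × (𝓞 F ⧸ sp F q)) = mk2 q a b := by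
    intro q
    by_cases hq : q ∈ S
    · obtain ⟨a, b, h1, h2⟩ := (ρ ⟨q, hq⟩).2
      exact ⟨a, b, fun _ => ⟨h1, h2⟩⟩
    · exact ⟨0, 0, fun h => absurd h hq⟩
  choose a b hab using h
  exact ⟨a, b, fun q hq => (hab q hq).1, fun q => (hab q q.2).2⟩

end

theorem bds (h : Pool.Agent.N783.PF.S_BAD) : Pool.Agent.H458.AU.S_BDS := by
  intro F _ _ κ
  obtain ⟨C, K, hCK⟩ := h F 1 κ le_rfl
  refine ⟨C, K, fun W S 𝔮 hKW hW hS => ?_⟩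
  have hpos : ∀ q ∈ S, 0 < q := fun q hq => (hS q hq).pr.pos
  have hfin := finite_rho (𝔮 := 𝔮) hpos
  have hft : Fintype (Rho S 𝔮) := Fintype.ofFinite _
  choose a b hab1 hab2 using reps S 𝔮
  have hN : ∀ ρ : Rho S 𝔮, ∃ N₀ : ℕ, ∀ N ≥ N₀,
      {f : (𝓞 F)[X] | LBad 1 N κ S 𝔮 (fun q => pl (a ρ q) (b ρ q)) f}.Finite ∧
      2 ^ S.card * (∏ q ∈ S, q ^ (2 * 1)) ^ Module.finrank ℚ F *
        {f : (𝓞 F)[X] | LBad 1 N κ S 𝔮 (fun q => pl (a ρ q) (b ρ q)) f}.ncard ≤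
      C * 2 ^ (Module.finrank ℚ F * (2 * N * Pool.Agent.N352.PJ.dd 1)) := fun ρ =>
    hCK W S 𝔮 _ _ hKW (goodS hW hS (hab1 ρ))
  choose N₀ hN₀ using hN
  refine ⟨Finset.univ.sup N₀, fun N hNN => ?_⟩
  have hNρ : ∀ ρ : Rho S 𝔮, N₀ ρ ≤ N := fun ρ =>
    (Finset.le_sup (f := N₀) (Finset.mem_univ ρ)).trans hNN
  have hsub : {f : (𝓞 F)[X] | f = pl (f.coeff 1) (f.coeff 0) ∧
      (∀ q ∈ S, Gq q (𝔮 q) (f.coeff 1) (f.coeff 0)) ∧ BadS N κ S 𝔮 f} ⊆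
      ⋃ ρ : Rho S 𝔮, {f : (𝓞 F)[X] | LBad 1 N κ S 𝔮 (fun q => pl (a ρ q) (b ρ q)) f} := by
    rintro f ⟨hf1, hf2, hf3⟩
    rw [Set.mem_iUnion]
    obtain ⟨ρ, hρ⟩ : ∃ ρ : Rho S 𝔮, ∀ q : S,
        (ρ q : (𝓞 F ⧸ sp F q) × (𝓞 F ⧸ sp F q)) = mk2 (q : ℕ) (f.coeff 1) (f.coeff 0) :=
      ⟨fun q => ⟨mk2 (q : ℕ) (f.coeff 1) (f.coeff 0),
        (mem_GR (hS q q.2).mem).2 (hf2 q q.2)⟩, fun q => rfl⟩
    refine ⟨ρ, lbad (fun q hq 𝔭 _ hqp => ?_) hf3⟩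
    conv_lhs => rw [hf1]
    refine rd_eq hqp ?_
    rw [← hρ ⟨q, hq⟩, ← hab2 ρ ⟨q, hq⟩]
  have hfinU : (⋃ ρ : Rho S 𝔮,
      {f : (𝓞 F)[X] | LBad 1 N κ S 𝔮 (fun q => pl (a ρ q) (b ρ q)) f}).Finite :=
    Set.finite_iUnion fun ρ => (hN₀ ρ N (hNρ ρ)).1
  refine ⟨hfinU.subset hsub, ?_⟩
  have hcard := (Set.ncard_le_ncard hsub hfinU).trans (Set.ncard_iUnion_le_of_fintype _)
  have hprod : (∏ q ∈ S, q) ^ (2 * Module.finrank ℚ F) =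
      (∏ q ∈ S, q ^ (2 * 1)) ^ Module.finrank ℚ F := by
    rw [pow_mul, mul_one, Finset.prod_pow]
  have hdd : 2 * N * Pool.Agent.N352.PJ.dd 1 = 10 * N := by
    unfold Pool.Agent.N352.PJ.dd
    ring
  rw [hprod, ← card_rho, Nat.card_eq_fintype_card]
  calc _ ≤ 2 ^ S.card * (∏ q ∈ S, q ^ (2 * 1)) ^ Module.finrank ℚ F *
        ∑ ρ : Rho S 𝔮, {f : (𝓞 F)[X] | LBad 1 N κ S 𝔮 (fun q => pl (a ρ q) (b ρ q)) f}.ncard :=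
        Nat.mul_le_mul_left _ hcard
    _ = ∑ ρ : Rho S 𝔮, 2 ^ S.card * (∏ q ∈ S, q ^ (2 * 1)) ^ Module.finrank ℚ F *
        {f : (𝓞 F)[X] | LBad 1 N κ S 𝔮 (fun q => pl (a ρ q) (b ρ q)) f}.ncard :=
        Finset.mul_sum _ _ _
    _ ≤ ∑ _ρ : Rho S 𝔮, C * 2 ^ (Module.finrank ℚ F * (2 * N * Pool.Agent.N352.PJ.dd 1)) :=
        Finset.sum_le_sum fun ρ _ => (hN₀ ρ N (hNρ ρ)).2
    _ = _ := by
        rw [Finset.sum_const, Finset.card_univ, smul_eq_mul, hdd]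
        ring

end Pool.Agent.H549.AU458.BDS
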